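import Pool.Agent.W749.NM.Stm

/-!
# Project JI: statements of the parts (nothing is proved here)

The local motivic zeta function at the origin and the local Bernstein-Sato polynomial of the ideal
`I = (f_1, ..., f_r)`, `f_i = ∑_{π j = i} c_j x ^ m_j`, where the vectors `(m_j, e_{π j})` are
linearly independent and no exponent is equal to `1`.

Main device: `g = ∑_i y_i f_i`, in the variables `(x, y)` (the last `r` ones are the `y_i`), whose
exponent vectors are `cay π m j = (m_j, e_{π j})`.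
-/

set_option autoImplicit false

namespace Pool.Agent.W749.JI

open MvPolynomial
open Pool.Agent.W428.MOT Pool.Agent.W749.NM
open Pool.Agent.W426.SM (AffInd gord ford IsRay face ff aff)
open Pool.Agent.H628R4.TP (weylS)

/-! ### The ideals -/

/-- The polynomials `f_i = ∑_{π j = i} c_j x ^ m_j`. -/
noncomputable def fam {F : Type} [Field F] {n k r : ℕ} (π : Fin k → Fin r)
    (m : Fin k → Fin n → ℕ) (c : Fin k → F) (i : Fin r) : MvPolynomial (Fin n) F :=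
  ∑ j ∈ Finset.univ.filter (fun j => π j = i), C (c j) * ∏ v, X v ^ m j v

/-- The vectors `(m_j, e_{π j})` are linearly independent. -/
def JInd {n k r : ℕ} (π : Fin k → Fin r) (m : Fin k → Fin n → ℕ) : Prop :=
  ∀ γ : Fin k → ℚ, (∀ i, ∑ j, (if π j = i then γ j else 0) = 0) →
    (∀ v, ∑ j, γ j * m j v = 0) → ∀ j, γ j = 0

/-- The exponent vectors `(m_j, e_{π j})` of `g = ∑_i y_i f_i`. -/
def cay {n k r : ℕ} (π : Fin k → Fin r) (m : Fin k → Fin n → ℕ) (j : Fin k) : Fin (n + r) → ℕ :=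
  Fin.append (m j) (fun i => if π j = i then 1 else 0)

/-- `g = ∑_i y_i f_i` -/
noncomputable def gpol {n r : ℕ} (f : Fin r → MvPolynomial (Fin n) ℂ) :
    MvPolynomial (Fin (n + r)) ℂ :=
  ∑ i, X (Fin.natAdd n i) * rename (Fin.castAdd r) (f i)

/-- The functional equation of Budur, Mustata and Saito for the ideal `(f_1, ..., f_r)`, with
differential operators with formal power series coefficients at the origin:
`b(s_1 + ⋯ + s_r) ∏ f_i ^ s_i = ∑_c P_c(s_1, ..., s_r) ∏_{c_i < 0} binom(s_i, - c_i)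
∏ f_i ^ (s_i + c_i)`, `c` in a finite set of vectors in `ℤ ^ r` with `∑ c_i = 1`. The equation is
stated for all `s ∈ ℕ ^ r`. -/
def IsLocalBIdeal {n r : ℕ} (f : Fin r → MvPolynomial (Fin n) ℂ) (b : Polynomial ℂ) : Prop :=
  ∃ (L : ℕ) (c : Fin L → Fin r → ℤ) (q : Fin L → MvPolynomial (Fin r) ℂ)
    (a : Fin L → MvPowerSeries (Fin n) ℂ) (Q : Fin L → weylS (Fin n)), (∀ l, ∑ i, c l i = 1) ∧
    ∀ s : Fin r → ℕ,
      MvPowerSeries.C (b.eval ((∑ i, s i : ℕ) : ℂ)) *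
          ((∏ i, f i ^ s i : MvPolynomial (Fin n) ℂ) : MvPowerSeries (Fin n) ℂ) =
        ∑ l, MvPowerSeries.C (eval (fun i => (s i : ℂ)) (q l) *
            ∏ i, ((s i).choose (-(c l i)).toNat : ℂ)) *
          (a l * (((Q l : Module.End ℂ (MvPolynomial (Fin n) ℂ))
            (∏ i, f i ^ ((s i : ℤ) + c l i).toNat) : MvPolynomial (Fin n) ℂ) :
              MvPowerSeries (Fin n) ℂ))

/-! ### Root side -/

/-- (KR) from formal power series coefficients to a polynomial unit. -/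
def S_KR : Prop :=
  ∀ {n L : ℕ} {S : Type} (B : S → MvPolynomial (Fin n) ℂ) (A : Fin L → S → MvPolynomial (Fin n) ℂ)
    (p : Fin L → MvPowerSeries (Fin n) ℂ),
    (∀ s, (B s : MvPowerSeries (Fin n) ℂ) = ∑ l, p l * (A l s : MvPowerSeries (Fin n) ℂ)) →
    ∃ (a : MvPolynomial (Fin n) ℂ) (c : Fin L → MvPolynomial (Fin n) ℂ), constantCoeff a = 1 ∧
      ∀ s, a * B s = ∑ l, c l * A l s

/-- (BTOG) from the ideal to `g`. -/
def S_BtoG : Prop :=
  ∀ {n r : ℕ} (f : Fin r → MvPolynomial (Fin n) ℂ) (b : Polynomial ℂ), IsLocalBIdeal f b →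
    IsUnitB (gpol f) ((Polynomial.X + 1) * b)

/-- The local functional equation in terms of the exponents (`A = 0`, `e = 1`), without the factor
`∑ t_j + 1`, for `∑ t_j ≠ -1`. -/
def Ident0 {n k : ℕ} (m : Fin k → Fin n → ℕ) (b : Polynomial ℂ)
    {L' L : ℕ} (ac : Fin L' → ℂ) (γ : Fin L' → Fin k → ℤ)
    (q : Fin L → Polynomial ℂ) (ω : Fin L → Fin k → ℤ) (α β : Fin L → Fin n → ℕ) : Prop :=
  (∀ l, ∑ j, γ l j = 0) ∧ (∀ l i, 0 ≤ ∑ j, γ l j * (m j i : ℤ)) ∧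
  (∀ l, ∃ i, 0 < ∑ j, γ l j * (m j i : ℤ)) ∧
  (∀ l, ∑ j, ω l j = -1) ∧
  (∀ l i, (β l i : ℤ) - α l i = ∑ j, ω l j * m j i) ∧
  ∀ t : Fin k → ℂ, (∀ (j : Fin k) (r : ℕ), t j ≠ -((r : ℂ) + 1)) → ∑ j, t j ≠ -1 →
    b.eval (∑ j, t j) * (1 + ∑ l, ac l * ∏ j, ff (γ l j) (t j)) =
      ∑ l, (q l).eval (∑ j, t j) * (∏ j, ff (ω l j) (t j)) *
        ∏ i, ∏ r ∈ Finset.range (α l i),
          (∑ j, t j * m j i - ((β l i : ℂ) - α l i) - r)

/-- (RCORE0) the contour argument; `Pool.Agent.W749.NM.S_RCore` with `A = 0`, `e = 1` and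
`Ident0`. -/
def S_RCore0 : Prop :=
  ∀ {n k : ℕ} (m : Fin k → Fin n → ℕ) (a u : Fin n → ℕ),
    (∀ i, 0 < u i) → RelRay m a (amin m u) → 0 < gord m a →
    ∀ (t₀ : Fin k → ℝ) (Λ : Fin k → BF a (amin m u) → ℝ) (p : BF a (amin m u) → ℝ),
      (∀ b, 0 < p b) →
      (∀ j, j ∉ amin m u → t₀ j = 0) →
      (∀ j (h : j ∉ amin m u) b, Λ j b = if b = Sum.inr ⟨j, h⟩ then -1 else 0) →
      (∀ i, a i ≠ 0 → ∑ j, t₀ j * m j i = -1) →
      (∀ i (h : a i ≠ 0) b, ∑ j, Λ j b * m j i = if b = Sum.inl ⟨i, h⟩ then 1 else 0) →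
      (∀ j, j ∈ amin m u → (∃ r : ℕ, t₀ j = -((r : ℝ) + 1)) →
        (∑ b, Λ j b * p b < 0) ∧
        ∀ ω : Fin k → ℝ,
          ∑ i : {i : Fin n // a i ≠ 0}, Λ j (Sum.inl i) * (∑ j', ω j' * m j' i) +
            ∑ l : {j : Fin k // j ∉ amin m u}, Λ j (Sum.inr l) * (- ω l) = ω j) →
    ∀ (b : Polynomial ℂ) {L' L : ℕ} (ac : Fin L' → ℂ) (γ : Fin L' → Fin k → ℤ)
      (q : Fin L → Polynomial ℂ) (ω : Fin L → Fin k → ℤ) (α β : Fin L → Fin n → ℕ),
      Ident0 m b ac γ q ω α β →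
      b.eval (-(((∑ i, a i : ℕ) : ℂ) / gord m a)) = 0

/-- (RLLI) the linear algebra of a relative ray of `cay π m`. -/
def S_RLLI : Prop :=
  ∀ {n k r : ℕ} (π : Fin k → Fin r) (m : Fin k → Fin n → ℕ) (a : Fin (n + r) → ℕ)
    (F : Finset (Fin k)), (∀ j v, m j v ≠ 1) → RelRay (cay π m) a F → 0 < gord (cay π m) a →
    (∀ i : Fin r, a (Fin.natAdd n i) ≠ 0 → 2 ≤ (F.filter fun j => π j = i).card) →
    ∃ (t₀ : Fin k → ℝ) (Λ : Fin k → BF a F → ℝ) (p : BF a F → ℝ),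
      (∀ b, 0 < p b) ∧
      (∀ j, j ∉ F → t₀ j = 0) ∧
      (∀ j (h : j ∉ F) b, Λ j b = if b = Sum.inr ⟨j, h⟩ then -1 else 0) ∧
      (∀ i, a i ≠ 0 → ∑ j, t₀ j * cay π m j i = -1) ∧
      (∀ i (h : a i ≠ 0) b, ∑ j, Λ j b * cay π m j i = if b = Sum.inl ⟨i, h⟩ then 1 else 0) ∧
      (∀ j, j ∈ F → (∃ r : ℕ, t₀ j = -((r : ℝ) + 1)) →
        (∑ b, Λ j b * p b < 0) ∧
        ∀ ω : Fin k → ℝ,
          ∑ i : {i : Fin (n + r) // a i ≠ 0}, Λ j (Sum.inl i) * (∑ j', ω j' * cay π m j' i) +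
            ∑ l : {j : Fin k // j ∉ F}, Λ j (Sum.inr l) * (- ω l) = ω j)

/-- (CHAMBER2) a chamber at a ray, in the closure of the chamber of `u₀`. -/
def S_Chamber2 : Prop :=
  ∀ {n k : ℕ} (m : Fin k → Fin n → ℕ) (a u₀ : Fin n → ℕ), 0 < k → IsRay m a →
    (∀ i, 0 < u₀ i) → amin m u₀ ⊆ amin m a →
    ∃ u : Fin n → ℕ, (∀ i, 0 < u i) ∧ amin m u₀ ⊆ amin m u ∧ RelRay m a (amin m u)

/-- (ROOTG) roots of the local Bernstein-Sato polynomial of the ideal. -/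
def S_RootG : Prop :=
  ∀ {n k r : ℕ} (π : Fin k → Fin r) (m : Fin k → Fin n → ℕ) (c : Fin k → ℂ),
    JInd π m → (∀ j, c j ≠ 0) → 0 < k → (∀ j v, m j v ≠ 1) →
    ∀ b : Polynomial ℂ, IsLocalBIdeal (fam π m c) b →
    ∀ a u₀ : Fin (n + r) → ℕ, IsRay (cay π m) a → 0 < gord (cay π m) a → (∀ i, 0 < u₀ i) →
      amin (cay π m) u₀ ⊆ amin (cay π m) a →
      (∀ i : Fin r, a (Fin.natAdd n i) ≠ 0 →
        2 ≤ ((amin (cay π m) u₀).filter fun j => π j = i).card) →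
      b.eval (-(((∑ i, a i : ℕ) : ℂ) / gord (cay π m) a)) = 0

/-! ### Jets -/

section Jets

variable {K : Type} [Field K] {n r : ℕ}

/-- The `N`-jets `ψ` of `𝔸 ^ n` with `ψ(0) = 0` on which the ideal `(f_1, ..., f_r)` has
order `N`. -/
def JetI (f : Fin r → MvPolynomial (Fin n) K) (N : ℕ) : Set (Pt K (Fin n × Fin (N + 1))) :=
  {z | (∀ v, z (v, 0) = 0) ∧ (∀ i, ∀ j < N, PowerSeries.coeff j (aeval (arc z) (f i)) = 0) ∧
    ∃ i, PowerSeries.coeff N (aeval (arc z) (f i)) ≠ 0}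

/-- The local motivic zeta function of the ideal `(f_1, ..., f_r)` at the origin,
`𝕃 ^ (-n) ∑_{N ≥ 1} [JetI N] 𝕃 ^ (- n N) T ^ N`. -/
noncomputable def zetaI (f : Fin r → MvPolynomial (Fin n) K) : PowerSeries (MK K) :=
  PowerSeries.C (((Lu K) ^ (-(n : ℤ)) : (MK K)ˣ) : MK K) * PowerSeries.mk fun N =>
    if N = 0 then 0 else
    algebraMap (K0 K) (MK K) (cls (Fin n × Fin (N + 1)) (JetI f N)) *
      (((Lu K) ^ (-((n * N : ℕ) : ℤ)) : (MK K)ˣ) : MK K)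

/-- The jets of level `2 N + 1` with origin `0` on which the ideal has order at least `N`. -/
def GE (f : Fin r → MvPolynomial (Fin n) K) (N : ℕ) :
    Set (Pt K (Fin n × Fin (2 * N + 1 + 1))) :=
  {z | (∀ v, z (v, 0) = 0) ∧ ∀ i, ∀ j < N, PowerSeries.coeff j (aeval (arc z) (f i)) = 0}

end Jets

/-- (JETI) order equal to `N` and order at least `N`. -/
def S_JetI : Prop :=
  ∀ {K : Type} [Field K] {R : Type} [CommRing R] (M : Meas K R) {n r : ℕ}
    (f : Fin r → MvPolynomial (Fin n) K) (N : ℕ), 1 ≤ N →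
    M.χ _ (JetI f N) * M.L ^ (n * (N + 3)) + M.χ _ (GE f (N + 1)) =
      M.χ _ (GE f N) * M.L ^ (2 * n)

/-- (PART) partition of the jets by the orders `u` of the coordinates (`u v = N + 1` means order at
least `N + 1`), and `z_v = t ^ (u v) y_v`. -/
def S_Part : Prop :=
  ∀ {K : Type} [Field K] {R : Type} [CommRing R] (M : Meas K R) {n r : ℕ}
    (f : Fin r → MvPolynomial (Fin n) K) (N : ℕ), 1 ≤ N →
    M.χ _ (GE f N) =
      ∑ u ∈ (Fintype.piFinset fun _ : Fin n => Finset.range (N + 2)).filter (Adm Finset.univ),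
        M.χ _ (Y0 (fun _ => (0 : K)) N u ∩ {y | ∀ i, ∀ j < N, PowerSeries.coeff j
          (aeval (fun v => PowerSeries.X ^ u v * arc y v) (f i)) = 0})

/-- The order of `f_i` at `u`. -/
noncomputable def ordI {n k r : ℕ} (π : Fin k → Fin r) (m : Fin k → Fin n → ℕ) (u : Fin n → ℕ)
    (i : Fin r) : ℕ :=
  ⨅ j : {j : Fin k // π j = i}, ∑ v, u v * m j.1 v

/-- `δ_j = u.m_j - min`, the minimum over the monomials of the same polynomial. -/
noncomputable def delI {n k r : ℕ} (π : Fin k → Fin r) (m : Fin k → Fin n → ℕ) (u : Fin n → ℕ)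
    (j : Fin k) : ℕ :=
  ∑ v, u v * m j v - ordI π m u (π j)

/-- the coefficients of `f_i` -/
def cI {F : Type} [Field F] {k r : ℕ} (π : Fin k → Fin r) (c : Fin k → F) (i : Fin r)
    (j : Fin k) : F :=
  if π j = i then c j else 0

/-- the polynomials of order less than `N` at `u` -/
noncomputable def low {n k r : ℕ} (π : Fin k → Fin r) (m : Fin k → Fin n → ℕ) (u : Fin n → ℕ)
    (N : ℕ) : Finset (Fin r) :=
  Finset.univ.filter fun i => ordI π m u i < N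

/-- their initial monomials -/
noncomputable def tau {n k r : ℕ} (π : Fin k → Fin r) (m : Fin k → Fin n → ℕ) (u : Fin n → ℕ)
    (N : ℕ) : Finset (Fin k) :=
  Finset.univ.filter fun j => ordI π m u (π j) < N ∧ ∑ v, u v * m j v = ordI π m u (π j)

/-- the free coordinates -/
abbrev fr {n k : ℕ} (m : Fin k → Fin n → ℕ) (τ : Finset (Fin k)) : Finset (Fin n) :=
  free (fun _ => 0) m Finset.univ τ

/-- The base of the strata. -/
def BI {K : Type} [Field K] {n k r : ℕ} (π : Fin k → Fin r) (m : Fin k → Fin n → ℕ)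
    (c : Fin k → K) (Q : Finset (Fin r)) (τ : Finset (Fin k)) : Set (Pt K (Fin n)) :=
  {z | (∀ v, z v ≠ 0) ∧ (∀ v ∈ fr m τ, z v = 1) ∧ ∀ i ∈ Q, gbar m (cI π (cb c) i) τ z = 0}

/-- (CONDI) the condition on `y`. -/
def S_CondI : Prop :=
  ∀ {K : Type} [Field K] {n k r : ℕ} (π : Fin k → Fin r) (m : Fin k → Fin n → ℕ)
    (c : Fin k → K) (u : Fin n → ℕ) (N L : ℕ) (y : Pt K (Fin n × Fin (L + 1))),
    (∀ i, ∀ j < N, PowerSeries.coeff j
        (aeval (fun v => PowerSeries.X ^ u v * arc y v) (fam π m c i)) = 0) ↔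
      ∀ i q, ordI π m u i + q < N →
        PowerSeries.coeff q (gser m (cI π (cb c) i) (delI π m u) (arc y)) = 0

/-- (LIN) independent affine linear conditions on the coordinates in `C`. -/
def S_Lin : Prop :=
  ∀ {K : Type} [Field K] {R : Type} [CommRing R] (M : Meas K R) {ι : Type} [Fintype ι]
    [DecidableEq ι] (C : Finset ι) (q : ℕ) (S : Set (Pt K ι))
    (D : Fin q → ι → Pt K ι → AlgebraicClosure K) (h : Fin q → Pt K ι → AlgebraicClosure K),
    Constr S → (∀ p v, IsPF (D p v)) → (∀ p, IsPF (h p)) →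
    (∀ z w : Pt K ι, (∀ i, i ∉ C → w i = z i) →
      (z ∈ S → w ∈ S) ∧ (∀ p v, D p v w = D p v z) ∧ ∀ p, h p w = h p z) →
    (∀ z ∈ S, ∀ l : Fin q → AlgebraicClosure K, (∀ v ∈ C, ∑ p, l p * D p v z = 0) →
      ∀ p, l p = 0) →
    M.χ ι (S ∩ {z | ∀ p, ∑ v ∈ C, D p v z * z v + h p z = 0}) * M.L ^ q = M.χ ι S

/-- (NONI) the differentials of the initial forms are independent at the common zeros. -/
def S_NonI : Prop :=
  ∀ {F : Type} [Field F] [CharZero F] {n k r : ℕ} (π : Fin k → Fin r) (m : Fin k → Fin n → ℕ)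
    (c : Fin k → F) (τ : Finset (Fin k)) (z : Fin n → F), JInd π m → (∀ j, c j ≠ 0) →
    (∀ v, (∃ j ∈ τ, m j v ≠ 0) → z v ≠ 0) →
    (∀ i ∈ τ.image π, gbar m (cI π c i) τ z = 0) →
    ∀ l : Fin r → F, (∀ i, i ∉ τ.image π → l i = 0) →
      (∀ v, ∑ i, l i * dgbar m (cI π c i) τ v z = 0) → ∀ i, l i = 0

/-- (STI) the class of a stratum. -/
def S_StI : Prop :=
  ∀ {K : Type} [Field K] [CharZero K] {R : Type} [CommRing R] (M : Meas K R) {n k r : ℕ}
    (π : Fin k → Fin r) (m : Fin k → Fin n → ℕ) (c : Fin k → K), Function.Surjective π →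
    JInd π m → (∀ j, c j ≠ 0) → ∀ N : ℕ, 1 ≤ N → ∀ u : Fin n → ℕ, Adm Finset.univ u →
    (∀ v, u v ≤ N + 1) →
    M.χ _ (Y0 (fun _ => (0 : K)) N u ∩ {y | ∀ i q, ordI π m u i + q < N →
        PowerSeries.coeff q (gser m (cI π (cb c) i) (delI π m u) (arc y)) = 0}) *
        M.L ^ (∑ i ∈ low π m u N, (N - 1 - ordI π m u i)) =
      M.χ _ (BI π m c (low π m u N) (tau π m u N)) *
        (M.L - 1) ^ ((fr m (tau π m u N)).filter fun v => u v ≤ N).card *
        M.L ^ ((fr m (tau π m u N)).filter fun v => ¬ u v ≤ N).card *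
        M.L ^ (∑ v, (2 * N + 1 - u v))

/-! ### Counting -/

/-- the sum of the weights of the `u` in `[1, N + 1] ^ n` of type `(Q, τ)` -/
noncomputable def cpI {n k r : ℕ} (π : Fin k → Fin r) (m : Fin k → Fin n → ℕ)
    (Q : Finset (Fin r)) (τ : Finset (Fin k)) (N : ℕ) : Polynomial ℤ :=
  ∑ u ∈ (Fintype.piFinset fun _ : Fin n => Finset.range (N + 2)).filter
    (fun u => Adm Finset.univ u ∧ low π m u N = Q ∧ tau π m u N = τ),
    wt (fun _ => 0) m Finset.univ τ N u * Polynomial.X ^ (∑ i ∈ Q, (N - 1 - ordI π m u i))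

/-- (SUMI) the class of the jets. -/
def S_SumI : Prop :=
  ∀ {K : Type} [Field K] [CharZero K] {R : Type} [CommRing R] (M : Meas K R) {n k r : ℕ}
    (π : Fin k → Fin r) (m : Fin k → Fin n → ℕ) (c : Fin k → K), Function.Surjective π →
    JInd π m → (∀ j, c j ≠ 0) → ∀ Y : R, M.L * Y = 1 → ∀ N : ℕ, 1 ≤ N →
    M.χ _ (GE (fam π m c) N) * Y ^ (n * (2 * N + 2)) =
      ∑ Q : Finset (Fin r), ∑ τ : Finset (Fin k), M.χ _ (BI π m c Q τ) *
        Y ^ (n - (fr m τ).card) * Polynomial.eval₂ (Int.castRingHom R) Y (cpI π m Q τ N)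

/-- the support of the vectors `(u, l)` with all `u v ≠ 0` and with `l i ≠ 0` for `i ∈ Q'` -/
def JQ {r : ℕ} (n : ℕ) (Q' : Finset (Fin r)) : Finset (Fin (n + r)) :=
  (Finset.univ.map (Fin.castAddEmb r)) ∪ Q'.map (Fin.natAddEmb n)

/-- (CPI) the counting polynomials in terms of those of `cay π m`, for `Q ≠ ∅`; note
`S_CP1`. -/
def S_CPI : Prop :=
  ∀ {n k r : ℕ} (π : Fin k → Fin r) (m : Fin k → Fin n → ℕ), Function.Surjective π →
    ∀ (τ : Finset (Fin k)), τ.Nonempty → ∀ M : ℕ,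
    cpI π m (τ.image π) τ (M + 1) =
      ∑ Q' ∈ (τ.image π).powerset, cp (fun _ => 0) (cay π m) 1 (JQ n Q') τ (M + 1) M

/-- (CPE) the counting polynomials for `Q = ∅`. -/
def S_CPE : Prop :=
  ∀ {n k r : ℕ} (π : Fin k → Fin r) (m : Fin k → Fin n → ℕ), Function.Surjective π → 0 < k →
    ∀ N : ℕ,
    cpI π m ∅ ∅ N + ∑ M ∈ Finset.range N, ∑ σ : Finset (Fin k),
      (1 - Polynomial.X) ^ (n - (fr m σ).card) * cp (fun _ => 0) m 1 Finset.univ σ M M =
        Polynomial.X ^ n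

/-- (RAT2) rationality, with only the rays of the closure of the cell. -/
def S_RAT2 : Prop :=
  ∀ {n r : ℕ} (A : Fin n → ℕ) (m : Fin r → Fin n → ℕ) (e : ℕ) (J : Finset (Fin n))
    (τ : Finset (Fin r)), 0 < r → 0 < e →
    ∃ (l : List (Fin n → ℕ)) (P : Polynomial (Polynomial ℤ)),
      (∀ a ∈ l, IsRay m a ∧ 0 < ford A m e a ∧ (∀ i, a i ≠ 0 → i ∈ J) ∧ τ ⊆ amin m a) ∧
      (PowerSeries.mk fun M => cp A m e J τ M M) *
          (l.map fun a => 1 - PowerSeries.C (Polynomial.X ^ (∑ i, a i)) *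
            PowerSeries.X ^ ford A m e a).prod =
        ((P : Polynomial (Polynomial ℤ)) : PowerSeries (Polynomial ℤ))

/-- (FINI) the final statement. -/
def S_FINI : Prop :=
  ∀ {n k r : ℕ} (π : Fin k → Fin r) (m : Fin k → Fin n → ℕ) (c : Fin k → ℂ), 0 < r →
    Function.Surjective π → JInd π m → (∀ j, c j ≠ 0) → (∀ j v, m j v ≠ 1) →
    (∀ j, ∃ v, m j v ≠ 0) →
    ∃ S : Finset (ℤ × ℤ),
      (∀ p ∈ S, p.1 < 0 ∧ 0 < p.2 ∧ ∀ b : Polynomial ℂ,
        IsLocalBIdeal (fam π m c) b → b.eval ((p.1 : ℂ) / p.2) = 0) ∧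
      zetaI (fam π m c) ∈ ratRing ℂ S

end Pool.Agent.W749.JI
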