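import Pool.Agent.W749.MT.StC
import Pool.Agent.W749.JI.Stm

/-!
# Project JI, part STI: the class of a stratum
-/

set_option autoImplicit false

namespace Pool.Agent.W749.JI.StI

open Pool.Agent.W428.MOT Pool.Agent.W749.MT Pool.Agent.W749.NM Pool.Agent.W749.JI
open Pool.Agent.W426.SM (AffInd gord ford)

/-! ### combinatorial facts -/

section Comb

variable {n k r : ℕ}

theorem ordI_le (π : Fin k → Fin r) (m : Fin k → Fin n → ℕ) (u : Fin n → ℕ) (j : Fin k) :
    ordI π m u (π j) ≤ ∑ v, u v * m j v :=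
  ciInf_le (OrderBot.bddBelow _) (⟨j, rfl⟩ : {j' : Fin k // π j' = π j})

theorem exists_ordI (π : Fin k → Fin r) (hπ : Function.Surjective π) (m : Fin k → Fin n → ℕ)
    (u : Fin n → ℕ) (i : Fin r) : ∃ j, π j = i ∧ ∑ v, u v * m j v = ordI π m u i := by
  obtain ⟨j₀, hj₀⟩ := hπ i
  have : Nonempty {j : Fin k // π j = i} := ⟨⟨j₀, hj₀⟩⟩
  have := Nat.sInf_mem (Set.range_nonempty fun j : {j : Fin k // π j = i} => ∑ v, u v * m j.1 v)
  obtain ⟨j, hj⟩ := this
  exact ⟨j.1, j.2, hj⟩

theorem mem_low (π : Fin k → Fin r) (m : Fin k → Fin n → ℕ) (u : Fin n → ℕ) (N : ℕ) (i : Fin r) :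
    i ∈ low π m u N ↔ ordI π m u i < N := by
  simp [low]

theorem mem_tau (π : Fin k → Fin r) (m : Fin k → Fin n → ℕ) (u : Fin n → ℕ) (N : ℕ) (j : Fin k) :
    j ∈ tau π m u N ↔ ordI π m u (π j) < N ∧ ∑ v, u v * m j v = ordI π m u (π j) := by
  simp [tau]

theorem mem_fr (m : Fin k → Fin n → ℕ) (τ : Finset (Fin k)) (v : Fin n) :
    v ∈ fr m τ ↔ ∀ j ∈ τ, m j v = 0 := by
  rw [mem_free]
  simp

theorem image_tau (π : Fin k → Fin r) (hπ : Function.Surjective π) (m : Fin k → Fin n → ℕ)
    (u : Fin n → ℕ) (N : ℕ) : (tau π m u N).image π = low π m u N := by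
  classical
  ext i
  rw [Finset.mem_image, mem_low]
  constructor
  · rintro ⟨j, hj, rfl⟩
    exact ((mem_tau π m u N j).1 hj).1
  · intro h
    obtain ⟨j, hj, hj'⟩ := exists_ordI π hπ m u i
    subst hj
    exact ⟨j, (mem_tau π m u N j).2 ⟨h, hj'⟩, rfl⟩

theorem le_of_not_fr (π : Fin k → Fin r) (m : Fin k → Fin n → ℕ) (u : Fin n → ℕ) (N : ℕ)
    (v : Fin n) (hv : v ∉ fr m (tau π m u N)) : u v < N := by
  rw [mem_fr] at hv
  push Not at hv
  obtain ⟨j, hj, hm⟩ := hv
  obtain ⟨h1, h2⟩ := (mem_tau π m u N j).1 hj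
  have h4 : u v * m j v ≤ ∑ i, u i * m j i :=
    Finset.single_le_sum (f := fun i => u i * m j i) (fun _ _ => Nat.zero_le _)
      (Finset.mem_univ v)
  have h5 : u v ≤ u v * m j v := Nat.le_mul_of_pos_right _ (Nat.pos_of_ne_zero hm)
  omega

end Comb

section Alg

variable {n k r : ℕ}

theorem cI_cb {K : Type} [Field K] (π : Fin k → Fin r) (c : Fin k → K) (i : Fin r) :
    cI π (cb c) i = cb (cI π c i) := by
  funext j
  by_cases h : π j = i
  · simp [cI, cb, h]
  · simp [cI, cb, h]

/-- only the monomials of `f_i` count -/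
theorem gbar_cI {F : Type} [Field F] (π : Fin k → Fin r) (m : Fin k → Fin n → ℕ) (c : Fin k → F)
    (i : Fin r) (τ τ' : Finset (Fin k)) (h : ∀ j, π j = i → (j ∈ τ ↔ j ∈ τ')) (z : Fin n → F) :
    gbar m (cI π c i) τ z = gbar m (cI π c i) τ' z := by
  classical
  unfold gbar
  have h1 : ∀ s : Finset (Fin k), ∑ j ∈ s, cI π c i j * ∏ v, z v ^ m j v =
      ∑ j ∈ s.filter (fun j => π j = i), cI π c i j * ∏ v, z v ^ m j v := by
    intro s
    rw [Finset.sum_filter]
    refine Finset.sum_congr rfl fun j _ => ?_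
    unfold cI
    split_ifs with h0
    · rfl
    · rw [zero_mul]
  rw [h1 τ, h1 τ']
  congr 1
  ext j
  rw [Finset.mem_filter, Finset.mem_filter]
  constructor
  · rintro ⟨h2, h3⟩
    exact ⟨(h j h3).1 h2, h3⟩
  · rintro ⟨h2, h3⟩
    exact ⟨(h j h3).2 h2, h3⟩

theorem dgbar_cI {F : Type} [Field F] (π : Fin k → Fin r) (m : Fin k → Fin n → ℕ) (c : Fin k → F)
    (i : Fin r) (τ τ' : Finset (Fin k)) (h : ∀ j, π j = i → (j ∈ τ ↔ j ∈ τ')) (v : Fin n)
    (z : Fin n → F) :
    dgbar m (cI π c i) τ v z = dgbar m (cI π c i) τ' v z := by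
  classical
  unfold dgbar
  have h1 : ∀ s : Finset (Fin k), ∑ j ∈ s, cI π c i j * ((m j v : F) *
        ∏ w, z w ^ (m j w - if w = v then 1 else 0)) =
      ∑ j ∈ s.filter (fun j => π j = i), cI π c i j * ((m j v : F) *
        ∏ w, z w ^ (m j w - if w = v then 1 else 0)) := by
    intro s
    rw [Finset.sum_filter]
    refine Finset.sum_congr rfl fun j _ => ?_
    unfold cI
    split_ifs with h0
    · rfl
    · rw [zero_mul]
  rw [h1 τ, h1 τ']
  congr 1
  ext j
  rw [Finset.mem_filter, Finset.mem_filter]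
  constructor
  · rintro ⟨h2, h3⟩
    exact ⟨(h j h3).1 h2, h3⟩
  · rintro ⟨h2, h3⟩
    exact ⟨(h j h3).2 h2, h3⟩

/-- for the polynomials of low order, `τ` consists of the monomials with `δ = 0` -/
theorem mem_tau_iff (π : Fin k → Fin r) (m : Fin k → Fin n → ℕ) (u : Fin n → ℕ) (N : ℕ)
    (i : Fin r) (hi : i ∈ low π m u N) (j : Fin k) (hj : π j = i) :
    (j ∈ (Finset.univ.filter fun j => delI π m u j = 0)) ↔ j ∈ tau π m u N := by
  subst hj
  have h1 := ordI_le π m u j
  rw [mem_tau, Finset.mem_filter]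
  have h2 := (mem_low π m u N (π j)).1 hi
  unfold delI
  constructor
  · rintro ⟨_, h3⟩
    exact ⟨h2, by omega⟩
  · rintro ⟨_, h3⟩
    exact ⟨Finset.mem_univ _, by omega⟩

end Alg

section Levels

variable {K : Type} [Field K] {n k r : ℕ} {R : Type} [CommRing R]

/-- the conditions of level `< s` -/
def W (π : Fin k → Fin r) (m : Fin k → Fin n → ℕ) (c : Fin k → K) (u : Fin n → ℕ) (N s : ℕ) :
    Set (Pt K (Fin n × Fin (2 * N + 1 + 1))) :=
  {y | ∀ i q, ordI π m u i + q < N → q < s →
    PowerSeries.coeff q (gser m (cI π (cb c) i) (delI π m u) (arc y)) = 0}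

theorem constr_W (π : Fin k → Fin r) (m : Fin k → Fin n → ℕ) (c : Fin k → K) (u : Fin n → ℕ)
    (N s : ℕ) : Constr (W π m c u N s) := by
  have h1 : W π m c u N s = {y | ∀ i, ∀ q < s, ordI π m u i + q < N →
      PowerSeries.coeff q (gser m (cI π (cb c) i) (delI π m u) (arc y)) = 0} := by
    ext y
    simp only [W, Set.mem_ofPred_eq]
    exact ⟨fun h i q hq hN => h i q hN hq, fun h i q hN hq => h i q hq hN⟩
  rw [h1]
  refine Constr.all fun i => Constr.allLt s fun q _ => Constr.imp' fun _ => ?_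
  rw [cI_cb]
  exact Constr.eqz (IsPA_gser m (cI π c i) (delI π m u) q)

/-- the set at level `0` -/
def T0 (π : Fin k → Fin r) (m : Fin k → Fin n → ℕ) (c : Fin k → K) (Q : Finset (Fin r))
    (τ : Finset (Fin k)) (N : ℕ) : Set (Pt K (Fin n × Fin (2 * N + 1 + 1))) :=
  {y | ∀ i ∈ Q, gbar m (cI π (cb c) i) τ (fun v => y (v, 0)) = 0}

theorem W_one (h2 : S_Tay) (π : Fin k → Fin r) (m : Fin k → Fin n → ℕ) (c : Fin k → K)
    (u : Fin n → ℕ) (N : ℕ) :
    W π m c u N 1 = T0 π m c (low π m u N) (tau π m u N) N := by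
  ext y
  have hg : ∀ i ∈ low π m u N, PowerSeries.coeff 0 (gser m (cI π (cb c) i) (delI π m u) (arc y)) =
      gbar m (cI π (cb c) i) (tau π m u N) (fun v => y (v, 0)) := by
    intro i hi
    rw [(h2 m (cI π (cb c) i) (delI π m u) (arc y)).1]
    simp only [constantCoeff_arc]
    exact gbar_cI π m (cb c) i _ _ (fun j hj => mem_tau_iff π m u N i hi j hj) _
  constructor
  · intro h i hi
    rw [← hg i hi]
    exact h i 0 (by rw [add_zero]; exact (mem_low π m u N i).1 hi) one_pos
  · intro h i q hq hq1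
    have h0 : q = 0 := by omega
    subst h0
    have hi : i ∈ low π m u N := (mem_low π m u N i).2 (by omega)
    rw [hg i hi]
    exact h i hi

theorem constr_T0 (π : Fin k → Fin r) (m : Fin k → Fin n → ℕ) (c : Fin k → K)
    (Q : Finset (Fin r)) (τ : Finset (Fin k)) (N : ℕ) : Constr (T0 π m c Q τ N) := by
  refine Constr.ballFinset _ fun i _ => ?_
  rw [cI_cb]
  exact Constr.eqz (IsPF_gbar m (cI π c i) τ (fun v => (v, 0)))

theorem constr_BI (π : Fin k → Fin r) (m : Fin k → Fin n → ℕ) (c : Fin k → K)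
    (Q : Finset (Fin r)) (τ : Finset (Fin k)) : Constr (BI π m c Q τ) := by
  refine Constr.and ?_ (Constr.and ?_ ?_)
  · exact Constr.all fun i => Constr.ne (IsPF.coord _) IsPF.zero
  · exact Constr.ballFinset _ fun i _ => Constr.eq (IsPF.coord _) IsPF.one
  · refine Constr.ballFinset _ fun i _ => ?_
    rw [cI_cb]
    exact Constr.eqz (IsPF_gbar m (cI π c i) τ id)

theorem base (h1 : S_Free) (h2 : S_Tay) (M : Meas K R) (π : Fin k → Fin r)
    (m : Fin k → Fin n → ℕ) (c : Fin k → K) (N : ℕ) (u : Fin n → ℕ) :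
    M.χ _ (Y0 (fun _ => (0 : K)) N u ∩ W π m c u N 1) =
      M.χ _ (BI π m c (low π m u N) (tau π m u N)) *
        (M.L - 1) ^ ((fr m (tau π m u N)).filter fun v => u v ≤ N).card *
        M.L ^ ((fr m (tau π m u N)).filter fun v => ¬ u v ≤ N).card *
        M.L ^ (∑ v, (2 * N + 1 - u v)) := by
  classical
  set τ := tau π m u N with hτ
  set Q := low π m u N with hQ
  set Fr := fr m τ with hFr
  have hFJ : ∀ i ∈ Fr, ∀ j ∈ τ, m j i = 0 := fun i hi => (mem_fr m τ i).1 hi
  set T : Set (Pt K (Fin n × Fin (2 * N + 1 + 1))) := T0 π m c Q τ N with hT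
  have hTc : Constr T := constr_T0 π m c Q τ N
  have hdep : ∀ y w : Pt K (Fin n × Fin (2 * N + 1 + 1)), (∀ i, i ∉ Fr → w (i, 0) = y (i, 0)) →
      (∀ p ∈ (∅ : Finset (Fin n × Fin (2 * N + 1 + 1))), w p = y p) → y ∈ T → w ∈ T := by
    intro y w h _ hy i hi
    rw [← hy i hi]
    refine gbar_congr m _ τ _ _ fun v hv => ?_
    refine h v fun hc => ?_
    obtain ⟨j, hj, hm⟩ := hv
    exact hm (hFJ v hc j hj)
  have key := freeN h1 M (fun _ => (0 : K)) N u Fr (fun i hi => rfl)
    (fun i hi => (le_of_not_fr π m u N i hi).le) ∅ (Finset.empty_subset _) T hTc hdep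
  rw [Finset.card_empty, pow_zero, mul_one] at key
  rw [W_one h2, key]
  congr 3
  refine M.iso _ _ (constr_Nrm (fun _ => (0 : K)) N Fr ∅ T hTc) (constr_BI π m c Q τ)
    (fun y i => y (i, 0)) (fun z p => if (p.2 : ℕ) = 0 then z p.1 else 0) ?_ ?_ ?_ ?_ ?_ ?_
  · exact regularOn_poly (fun i => IsPF.coord _) _
  · refine regularOn_poly (fun p => ?_) _
    by_cases h : (p.2 : ℕ) = 0
    · simpa only [if_pos h] using IsPF.coord (K := K) p.1
    · simpa only [if_neg h] using IsPF.zero (K := K)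
  · rintro y ⟨⟨hy1, hy2, hy3, hy4⟩, hy5⟩
    refine ⟨?_, hy4, hy5⟩
    intro i
    by_cases h : i ∈ Fr
    · show y (i, 0) ≠ 0
      rw [hy4 i h]
      exact one_ne_zero
    · exact hy2 i h
  · rintro z ⟨hz1, hz2, hz3⟩
    have h0 : ((0 : Fin (2 * N + 1 + 1)) : ℕ) = 0 := rfl
    refine ⟨⟨?_, ?_, ?_, ?_⟩, ?_⟩
    · intro p hp _
      exact if_neg hp.ne'
    · intro i hi
      show (if ((0 : Fin (2 * N + 1 + 1)) : ℕ) = 0 then z i else 0) ≠ 0
      rw [if_pos h0]
      exact hz1 i
    · intro i hi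
      exact absurd rfl hi
    · intro i hi
      show (if ((0 : Fin (2 * N + 1 + 1)) : ℕ) = 0 then z i else 0) = _
      rw [if_pos h0]
      exact hz2 i hi
    · intro i hi
      show gbar m (cI π (cb c) i) τ
        (fun i => if ((0 : Fin (2 * N + 1 + 1)) : ℕ) = 0 then z i else 0) = 0
      simp only [if_pos h0]
      exact hz3 i hi
  · rintro y ⟨⟨hy1, hy2, hy3, hy4⟩, hy5⟩
    funext p
    show (if (p.2 : ℕ) = 0 then y (p.1, 0) else 0) = y p
    by_cases h : (p.2 : ℕ) = 0
    · rw [if_pos h]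
      congr 1
      refine Prod.ext rfl ?_
      exact Fin.ext h.symm
    · rw [if_neg h]
      exact (hy1 p (Nat.pos_of_ne_zero h) (Finset.notMem_empty p)).symm
  · intro z _
    funext i
    show (if ((0 : Fin (2 * N + 1 + 1)) : ℕ) = 0 then z i else 0) = z i
    exact if_pos rfl

/-- set the coordinates `(v, s)`, `v ∈ V`, to `0` -/
noncomputable def zr {N : ℕ} (V : Finset (Fin n)) (s : ℕ) (y : Pt K (Fin n × Fin (N + 1))) :
    Pt K (Fin n × Fin (N + 1)) :=
  fun p => if p.1 ∈ V ∧ (p.2 : ℕ) = s then 0 else y p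

theorem coeff_arc_zr {N : ℕ} (V : Finset (Fin n)) (s : ℕ) (y : Pt K (Fin n × Fin (N + 1)))
    (v : Fin n) (q : ℕ) : PowerSeries.coeff q (arc (zr V s y) v) =
      if v ∈ V ∧ q = s then 0 else PowerSeries.coeff q (arc y v) := by
  unfold arc zr
  rw [PowerSeries.coeff_mk, PowerSeries.coeff_mk]
  by_cases h : q < N + 1
  · rw [dif_pos h, dif_pos h]
  · rw [dif_neg h, dif_neg h, ite_self]

theorem taylor (h2 : S_Tay) {N : ℕ} (m : Fin k → Fin n → ℕ) (c : Fin k → AlgebraicClosure K)
    (δ : Fin k → ℕ) (s : ℕ) (hs : 1 ≤ s) (hsN : s < N + 1) (V : Finset (Fin n))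
    (y : Pt K (Fin n × Fin (N + 1))) :
    PowerSeries.coeff s (gser m c δ (arc y)) =
      ∑ v ∈ V, dgbar m c (Finset.univ.filter fun j => δ j = 0) v (fun i => y (i, 0)) *
          y (v, ⟨s, hsN⟩) +
        PowerSeries.coeff s (gser m c δ (arc (zr V s y))) := by
  classical
  induction V using Finset.induction_on with
  | empty =>
    rw [Finset.sum_empty, zero_add]
    have h0 : zr (∅ : Finset (Fin n)) s y = y := by
      funext p
      unfold zr
      rw [if_neg]
      rintro ⟨h, _⟩
      exact Finset.notMem_empty _ h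
    rw [h0]
  | insert v V hv ih =>
    rw [ih, Finset.sum_insert hv]
    have h3 : arc (zr V s y) = Function.update (arc (zr (insert v V) s y)) v
        (arc (zr (insert v V) s y) v + PowerSeries.C (y (v, ⟨s, hsN⟩)) * PowerSeries.X ^ s) := by
      funext w
      refine PowerSeries.ext fun q => ?_
      by_cases hw : w = v
      · subst hw
        rw [Function.update_self, map_add, coeff_arc_zr, coeff_arc_zr, PowerSeries.coeff_C_mul,
          PowerSeries.coeff_X_pow, if_neg (fun h => hv h.1)]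
        by_cases hq : q = s
        · subst hq
          rw [if_pos ⟨Finset.mem_insert_self _ _, rfl⟩, if_pos rfl, zero_add, mul_one,
            coeff_arc _ _ _ hsN]
        · rw [if_neg (fun h => hq h.2), if_neg hq, mul_zero, add_zero]
      · rw [Function.update_of_ne hw, coeff_arc_zr, coeff_arc_zr]
        have h4 : (w ∈ insert v V ∧ q = s) ↔ (w ∈ V ∧ q = s) := by
          rw [Finset.mem_insert]
          constructor
          · rintro ⟨h | h, h'⟩
            · exact absurd h hw
            · exact ⟨h, h'⟩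
          · rintro ⟨h, h'⟩
            exact ⟨Or.inr h, h'⟩
        by_cases h5 : w ∈ V ∧ q = s
        · rw [if_pos h5, if_pos (h4.2 h5)]
        · rw [if_neg h5, if_neg (fun h => h5 (h4.1 h))]
    rw [h3, (h2 m c δ (arc (zr (insert v V) s y))).2.2 s v (y (v, ⟨s, hsN⟩)) hs]
    have h6 : (fun i => PowerSeries.constantCoeff (arc (zr (insert v V) s y) i)) =
        fun i => y (i, 0) := by
      funext i
      rw [← PowerSeries.coeff_zero_eq_constantCoeff_apply, coeff_arc_zr, if_neg (by omega),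
        PowerSeries.coeff_zero_eq_constantCoeff_apply, constantCoeff_arc]
    rw [h6]
    ring

/-- the polynomials with a condition at level `s` -/
noncomputable def lev (π : Fin k → Fin r) (m : Fin k → Fin n → ℕ) (u : Fin n → ℕ) (N s : ℕ) :
    Finset (Fin r) :=
  Finset.univ.filter fun i => ordI π m u i + s < N

theorem mem_lev (π : Fin k → Fin r) (m : Fin k → Fin n → ℕ) (u : Fin n → ℕ) (N s : ℕ)
    (i : Fin r) : i ∈ lev π m u N s ↔ ordI π m u i + s < N := by
  simp [lev]

theorem step [CharZero K] (h2 : S_Tay) (h3 : S_Lin) (h4 : S_NonI) (M : Meas K R)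
    (π : Fin k → Fin r) (hπ : Function.Surjective π) (m : Fin k → Fin n → ℕ) (c : Fin k → K)
    (hJ : JInd π m) (hc : ∀ j, c j ≠ 0) (N : ℕ) (u : Fin n → ℕ) (s : ℕ) (hs : 1 ≤ s)
    (hsN : s < N) :
    M.χ _ (Y0 (fun _ => (0 : K)) N u ∩ W π m c u N (s + 1)) * M.L ^ (lev π m u N s).card =
      M.χ _ (Y0 (fun _ => (0 : K)) N u ∩ W π m c u N s) := by
  classical
  have hsN' : s < 2 * N + 1 + 1 := by omega
  set τ := tau π m u N with hτ
  set δ := delI π m u with hδ
  set V : Finset (Fin n) := Finset.univ.filter fun v => v ∉ fr m τ with hV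
  have hmV : ∀ v, v ∈ V ↔ v ∉ fr m τ := fun v => by simp [hV]
  set s' : Fin (2 * N + 1 + 1) := ⟨s, hsN'⟩ with hs'
  have hinj : Function.Injective (fun v : Fin n => (v, s')) := fun a b h => (Prod.mk.inj h).1
  set C : Finset (Fin n × Fin (2 * N + 1 + 1)) := V.image (fun v => (v, s')) with hC
  have hmC : ∀ p, p ∈ C ↔ p.1 ∈ V ∧ (p.2 : ℕ) = s := by
    intro p
    rw [hC, Finset.mem_image]
    constructor
    · rintro ⟨v, hv, rfl⟩
      exact ⟨hv, rfl⟩
    · rintro ⟨h5, h6⟩
      exact ⟨p.1, h5, Prod.ext rfl (Fin.ext h6.symm)⟩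
  set E := (lev π m u N s).equivFin with hE
  set ix : Fin (lev π m u N s).card → Fin r := fun p => (E.symm p).1 with hix
  have hixm : ∀ p, ordI π m u (ix p) + s < N := fun p => (mem_lev π m u N s _).1 (E.symm p).2
  have hixl : ∀ p, ix p ∈ low π m u N := fun p => (mem_low π m u N _).2 (by
    have := hixm p
    omega)
  have hixi : Function.Injective ix := fun a b h => E.symm.injective (Subtype.ext h)
  set S := Y0 (fun _ => (0 : K)) N u ∩ W π m c u N s with hS
  set D : Fin (lev π m u N s).card → (Fin n × Fin (2 * N + 1 + 1)) →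
      Pt K (Fin n × Fin (2 * N + 1 + 1)) → AlgebraicClosure K :=
    fun p q y => dgbar m (cI π (cb c) (ix p)) τ q.1 (fun i => y (i, 0)) with hD
  set H : Fin (lev π m u N s).card → Pt K (Fin n × Fin (2 * N + 1 + 1)) → AlgebraicClosure K :=
    fun p y => PowerSeries.coeff s (gser m (cI π (cb c) (ix p)) δ (arc (zr V s y))) with hH
  have hu : ∀ v ∈ V, u v ≤ N := fun v hv => (le_of_not_fr π m u N v ((hmV v).1 hv)).le
  have hagree0 : ∀ z w : Pt K (Fin n × Fin (2 * N + 1 + 1)), (∀ i, i ∉ C → w i = z i) →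
      ∀ v, w (v, 0) = z (v, 0) := by
    intro z w h v
    refine h _ fun hc => ?_
    have h5 : ((0 : Fin (2 * N + 1 + 1)) : ℕ) = s := ((hmC _).1 hc).2
    have h6 : ((0 : Fin (2 * N + 1 + 1)) : ℕ) = 0 := rfl
    omega
  have key := h3 M C (lev π m u N s).card S D H
    ((constr_Y0 _ N u).inter (constr_W π m c u N s)) ?_ ?_ ?_ ?_
  · rw [← key]
    congr 2
    ext y
    have h5 : ∀ p, PowerSeries.coeff s (gser m (cI π (cb c) (ix p)) δ (arc y)) =
        ∑ q ∈ C, D p q y * y q + H p y := by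
      intro p
      rw [taylor h2 m (cI π (cb c) (ix p)) δ s hs hsN' V y, hC,
        Finset.sum_image (fun a _ b _ h => hinj h)]
      congr 1
      refine Finset.sum_congr rfl fun v _ => ?_
      congr 1
      exact dgbar_cI π m (cb c) (ix p) _ _
        (fun j hj => mem_tau_iff π m u N (ix p) (hixl p) j hj) v _
    constructor
    · rintro ⟨h6, h7⟩
      refine ⟨⟨h6, fun i q hq hqs => h7 i q hq (by omega)⟩, fun p => ?_⟩
      rw [← h5]
      exact h7 (ix p) s (hixm p) (by omega)
    · rintro ⟨⟨h6, h7⟩, h8⟩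
      refine ⟨h6, fun i q hq hqs => ?_⟩
      rcases Nat.lt_or_ge q s with h9 | h9
      · exact h7 i q hq h9
      · have h10 : q = s := by omega
        subst h10
        have h11 : ix (E ⟨i, (mem_lev π m u N q i).2 hq⟩) = i := by
          simp only [hix, Equiv.symm_apply_apply]
        have h12 := h8 (E ⟨i, (mem_lev π m u N q i).2 hq⟩)
        rw [← h5, h11] at h12
        exact h12
  · intro p q
    simp only [hD]
    rw [cI_cb]
    exact IsPF_dgbar m (cI π c (ix p)) τ q.1 (fun i => (i, 0))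
  · intro p
    simp only [hH]
    rw [cI_cb]
    refine (IsPA_gser m (cI π c (ix p)) δ s).comp (fun y => zr V s y) fun q => ?_
    unfold zr
    by_cases h : q.1 ∈ V ∧ (q.2 : ℕ) = s
    · simp only [if_pos h]
      exact IsPF.zero
    · simp only [if_neg h]
      exact IsPF.coord q
  · intro z w hzw
    have h0 := hagree0 z w hzw
    have hlow : ∀ v q, q < s → PowerSeries.coeff q (arc w v) = PowerSeries.coeff q (arc z v) := by
      intro v q hq
      rw [coeff_arc _ _ _ (show q < 2 * N + 1 + 1 by omega),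
        coeff_arc _ _ _ (show q < 2 * N + 1 + 1 by omega)]
      refine hzw _ fun hc => ?_
      have := ((hmC _).1 hc).2
      simp only at this
      omega
    refine ⟨?_, ?_, ?_⟩
    · rintro ⟨⟨h5, h6, h7⟩, h8⟩
      refine ⟨⟨fun v j hj => ?_, fun v hv => ?_, fun v hv => absurd rfl hv⟩, fun i q hq hqs => ?_⟩
      · rw [hzw _ fun hc => ?_]
        · exact h5 v j hj
        · obtain ⟨h9, h10⟩ := (hmC _).1 hc
          have h11 := hu v h9
          simp only at h10
          omega
      · rw [h0]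
        exact h6 v hv
      · rw [← h8 i q hq hqs]
        refine (h2 m (cI π (cb c) i) δ (arc z)).2.1 q _ (fun v q' hq' => ?_) q le_rfl
        exact hlow v q' (by omega)
    · intro p q
      simp only [hD]
      congr 1
      funext v
      exact h0 v
    · intro p
      simp only [hH]
      have h5 : zr V s w = zr V s z := by
        funext q
        unfold zr
        by_cases h : q.1 ∈ V ∧ (q.2 : ℕ) = s
        · rw [if_pos h, if_pos h]
        · rw [if_neg h, if_neg h]
          exact hzw q fun hc => h ((hmC q).1 hc)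
      rw [h5]
  · rintro z ⟨⟨h5, h6, h7⟩, h8⟩ l hl p
    have hcb : ∀ j, cb c j ≠ 0 := fun j => (map_ne_zero _).2 (hc j)
    have h9 := h4 π m (cb c) τ (fun v => z (v, 0)) hJ hcb ?_ ?_
      (fun i => if h : i ∈ lev π m u N s then l (E ⟨i, h⟩) else 0) ?_ ?_ (ix p)
    · have h10 : ix p ∈ lev π m u N s := (E.symm p).2
      rw [dif_pos h10] at h9
      have h11 : E ⟨ix p, h10⟩ = p := by
        simp only [hix, Subtype.coe_eta, Equiv.apply_symm_apply]
      rw [h11] at h9
      exact h9
    · rintro v ⟨j, hj, hm⟩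
      refine h6 v (hu v ((hmV v).2 fun hcf => ?_))
      exact hm ((mem_fr m τ v).1 hcf j hj)
    · intro i hi
      rw [image_tau π hπ m u N] at hi
      have h9 := h8 i 0 (by rw [add_zero]; exact (mem_low π m u N i).1 hi) (by omega)
      rw [(h2 m (cI π (cb c) i) δ (arc z)).1] at h9
      simp only [constantCoeff_arc] at h9
      rw [gbar_cI π m (cb c) i _ _ (fun j hj => mem_tau_iff π m u N i hi j hj)] at h9
      exact h9
    · intro i hi
      rw [image_tau π hπ m u N, mem_low] at hi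
      rw [dif_neg]
      intro h
      have := (mem_lev π m u N s i).1 h
      omega
    · intro v
      by_cases hv : v ∈ V
      · have h9 := hl (v, s') (Finset.mem_image_of_mem _ hv)
        simp only [hD] at h9
        refine Eq.trans ?_ h9
        rw [← Finset.sum_subset (Finset.subset_univ (lev π m u N s))
          (fun i _ hi => by rw [dif_neg hi, zero_mul]), ← Finset.sum_coe_sort (lev π m u N s),
          ← Equiv.sum_comp E.symm]
        refine Finset.sum_congr rfl fun q _ => ?_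
        have h11 : (E.symm q).1 ∈ lev π m u N s := (E.symm q).2
        rw [dif_pos h11]
        have h12 : E ⟨((E.symm q).1 : Fin r), h11⟩ = q := by
          rw [Subtype.coe_eta, Equiv.apply_symm_apply]
        rw [h12]
      · refine Finset.sum_eq_zero fun i _ => ?_
        rw [dgbar_zero m _ τ v _ ?_, mul_zero]
        intro j hj
        by_contra hm
        apply hv
        rw [hmV, mem_fr]
        intro hcf
        exact hm (hcf j hj)

theorem steps [CharZero K] (h2 : S_Tay) (h3 : S_Lin) (h4 : S_NonI) (M : Meas K R)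
    (π : Fin k → Fin r) (hπ : Function.Surjective π) (m : Fin k → Fin n → ℕ) (c : Fin k → K)
    (hJ : JInd π m) (hc : ∀ j, c j ≠ 0) (N : ℕ) (u : Fin n → ℕ) (s : ℕ) (hsN : s < N) :
    M.χ _ (Y0 (fun _ => (0 : K)) N u ∩ W π m c u N (s + 1)) *
        M.L ^ (∑ q ∈ Finset.range s, (lev π m u N (q + 1)).card) =
      M.χ _ (Y0 (fun _ => (0 : K)) N u ∩ W π m c u N 1) := by
  induction s with
  | zero => simp
  | succ s ih =>
    rw [Finset.sum_range_succ, pow_add, mul_comm (M.L ^ _) (M.L ^ _), ← mul_assoc,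
      step h2 h3 h4 M π hπ m c hJ hc N u (s + 1) (by omega) hsN]
    exact ih (by omega)

theorem sum_lev (π : Fin k → Fin r) (m : Fin k → Fin n → ℕ) (u : Fin n → ℕ) (N : ℕ) :
    ∑ q ∈ Finset.range (N - 1), (lev π m u N (q + 1)).card =
      ∑ i ∈ low π m u N, (N - 1 - ordI π m u i) := by
  classical
  have h1 : ∀ q, (lev π m u N (q + 1)).card =
      ∑ i, if ordI π m u i + (q + 1) < N then 1 else 0 := by
    intro q
    unfold lev
    rw [Finset.card_filter]
  simp only [h1]
  rw [Finset.sum_comm]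
  unfold low
  rw [Finset.sum_filter]
  refine Finset.sum_congr rfl fun i _ => ?_
  rw [← Finset.card_filter]
  have h2 : (Finset.range (N - 1)).filter (fun q => ordI π m u i + (q + 1) < N) =
      Finset.range (N - 1 - ordI π m u i) := by
    ext q
    rw [Finset.mem_filter, Finset.mem_range, Finset.mem_range]
    omega
  rw [h2, Finset.card_range]
  split_ifs
  · rfl
  · omega

end Levels

theorem main (h1 : S_Free) (h2 : S_Tay) (h3 : S_Lin) (h4 : S_NonI) : S_StI := by
  intro K _ _ R _ M n k r π m c hπ hJ hc N hN u _ _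
  classical
  rw [← base h1 h2 M π m c N u, ← steps h2 h3 h4 M π hπ m c hJ hc N u (N - 1) (by omega),
    sum_lev π m u N]
  congr 3
  ext y
  simp only [W, Set.mem_ofPred_eq]
  constructor
  · intro h i q hq _
    exact h i q hq
  · intro h i q hq
    exact h i q hq (by omega)

end Pool.Agent.W749.JI.StI
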