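import Pool.Agent.W335.JIKR
import Pool.Agent.W670.JI.BtoG
import Pool.Agent.W349.JIRCore0
import Pool.Agent.W349.JIRLLI
import Pool.Agent.W806.JIJetI
import Pool.Agent.W806.JIPart
import Pool.Agent.W806.JICondI
import Pool.Agent.W333.JINonI
import Pool.Agent.W45.JISumI
import Pool.Agent.W358.JI.CPI
import Pool.Agent.W29.JIRat2
import Pool.Agent.W902.JIFini
import Pool.Agent.W335.JIChamber2
import Pool.Agent.W973.JILin
import Pool.Agent.W405.JICPE
import Pool.Agent.W749.JI.StI
import Pool.Agent.W749.JI.RootG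
import Pool.Agent.W125.NMRAL
import Pool.Agent.W505.NMRCW
import Pool.Agent.W417.MT.K0
import Pool.Agent.W417.MT.Free
import Pool.Agent.W21.MTSub
import Pool.Agent.W417.MT.Tay
import Pool.Agent.W346.MTCp1
import Pool.Agent.W346.MTCp2
import Pool.Agent.W230.MTZCF

/-!
# Assembly of the project JI
-/

set_option autoImplicit false

namespace Pool.Agent.W749.JI

open Pool.Agent.W428.MOT

theorem sBtoG : S_BtoG := Pool.Agent.W670.JIBtoG.main Pool.W335.JIKR.main

theorem sRCore0 : S_RCore0 := W349.JI.main Pool.Agent.W505.NMRCW.main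

theorem sRootG : S_RootG := RootG.main sBtoG Pool.Agent.W125.NMRAL.main sRCore0
  Pool.Agent.W335.JIChamber2.main W349.JIRLLI.main

theorem sLin : S_Lin := Pool.Agent.W973.JILin.main Pool.Agent.W417.MT.Free.main
  Pool.Agent.W21.MTSub.main

theorem sStI : S_StI := StI.main Pool.Agent.W417.MT.Free.main
  Pool.Agent.W417.MT.Tay.main sLin Pool.Agent.W333.JINonI.main

theorem sSumI : S_SumI := Pool.Agent.W45.JISumI.main Pool.Agent.W806.JIPart.main
  Pool.Agent.W806.JICondI.main sStI

theorem sRAT2 : S_RAT2 := Pool.Agent.W29.JIRat2.main Pool.Agent.W346.MTCp2.main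
  Pool.Agent.W230.MTZCF.main

theorem sCPE : S_CPE := Pool.Agent.W405.JICPE.main Pool.Agent.W346.MTCp1.main

theorem sFINI : S_FINI :=
  Pool.Agent.W902.JIFini.main Pool.Agent.W417.MT.K0.main
  (Pool.Agent.W806.JIJetI.main Pool.Agent.W417.MT.Free.main) sSumI
  Pool.Agent.W358.JI.main sCPE sRAT2 sRootG Pool.Agent.W346.MTCp1.main

end Pool.Agent.W749.JI
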