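import Pool.Agent.W749.JI.Stm

/-!
# Project JI, part ROOTG: roots of the local Bernstein-Sato polynomial of the ideal
-/

set_option autoImplicit false

namespace Pool.Agent.W749.JI.RootG

open MvPolynomial
open Pool.Agent.W428.MOT Pool.Agent.W749.NM Pool.Agent.W749.JI
open Pool.Agent.W426.SM (AffInd gord ford IsRay face ff)

variable {n k r : ℕ}

theorem cay_left (π : Fin k → Fin r) (m : Fin k → Fin n → ℕ) (j : Fin k) (v : Fin n) :
    cay π m j (Fin.castAdd r v) = m j v := by
  unfold cay
  rw [Fin.append_left]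

theorem cay_right (π : Fin k → Fin r) (m : Fin k → Fin n → ℕ) (j : Fin k) (i : Fin r) :
    cay π m j (Fin.natAdd n i) = if π j = i then 1 else 0 := by
  unfold cay
  rw [Fin.append_right]

theorem gpol_eq (π : Fin k → Fin r) (m : Fin k → Fin n → ℕ) (c : Fin k → ℂ) :
    gpol (fam π m c) = sp (fun _ => 0) (cay π m) c 1 := by
  classical
  unfold gpol fam sp
  simp only [pow_zero, Finset.prod_const_one, one_mul, pow_one, map_sum, map_mul, rename_C,
    map_prod, map_pow, rename_X, Finset.mul_sum]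
  have h1 : ∀ j : Fin k, (∏ i : Fin (n + r), (X i : MvPolynomial (Fin (n + r)) ℂ) ^ cay π m j i) =
      (∏ v : Fin n, X (Fin.castAdd r v) ^ m j v) * X (Fin.natAdd n (π j)) := by
    intro j
    rw [Fin.prod_univ_add]
    congr 1
    · refine Finset.prod_congr rfl fun v _ => ?_
      rw [cay_left]
    · rw [Finset.prod_eq_single (π j)]
      · rw [cay_right, if_pos rfl, pow_one]
      · intro i _ hi
        rw [cay_right, if_neg (Ne.symm hi), pow_zero]
      · intro h
        exact absurd (Finset.mem_univ _) h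
  simp only [h1]
  rw [← Finset.sum_fiberwise_of_maps_to (s := (Finset.univ : Finset (Fin k)))
    (t := (Finset.univ : Finset (Fin r))) (g := π) (fun _ _ => Finset.mem_univ _)]
  refine Finset.sum_congr rfl fun i _ => ?_
  refine Finset.sum_congr rfl fun j hj => ?_
  rw [(Finset.mem_filter.1 hj).2]
  ring

theorem affInd_cay (π : Fin k → Fin r) (m : Fin k → Fin n → ℕ) (h : JInd π m) :
    AffInd (cay π m) := by
  classical
  unfold AffInd
  rw [affineIndependent_iff]
  intro s w _ hw e he
  have h1 := h (fun j => if j ∈ s then w j else 0) (fun i => ?_) (fun v => ?_) e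
  · simpa [he] using h1
  · have h2 := congrFun hw (Fin.natAdd n i)
    rw [Finset.sum_apply] at h2
    simp only [Pi.smul_apply, smul_eq_mul, cay_right, Pi.zero_apply] at h2
    calc ∑ j, (if π j = i then (if j ∈ s then w j else 0) else 0)
        = ∑ j, (if j ∈ s then w j * ((if π j = i then 1 else 0 : ℕ) : ℚ) else 0) := by
          refine Finset.sum_congr rfl fun j _ => ?_
          split_ifs <;> simp
      _ = ∑ j ∈ s, w j * ((if π j = i then 1 else 0 : ℕ) : ℚ) := by
          rw [Finset.sum_ite_mem, Finset.univ_inter]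
      _ = 0 := h2
  · have h2 := congrFun hw (Fin.castAdd r v)
    rw [Finset.sum_apply] at h2
    simp only [Pi.smul_apply, smul_eq_mul, cay_left, Pi.zero_apply] at h2
    calc ∑ j, (if j ∈ s then w j else 0) * (m j v : ℚ)
        = ∑ j, (if j ∈ s then w j * (m j v : ℚ) else 0) := by
          refine Finset.sum_congr rfl fun j _ => ?_
          split_ifs <;> simp
      _ = ∑ j ∈ s, w j * (m j v : ℚ) := by
          rw [Finset.sum_ite_mem, Finset.univ_inter]
      _ = 0 := h2

theorem ident0 (m : Fin k → Fin n → ℕ) (b : Polynomial ℂ) {L' L : ℕ} (ac : Fin L' → ℂ)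
    (γ : Fin L' → Fin k → ℤ) (q : Fin L → Polynomial ℂ) (ω : Fin L → Fin k → ℤ)
    (α β : Fin L → Fin n → ℕ)
    (h : Ident (fun _ => 0) m 1 ((Polynomial.X + 1) * b) ac γ q ω α β) :
    Ident0 m b ac γ q ω α β := by
  obtain ⟨h1, h2, h3, h4, h5, h6⟩ := h
  refine ⟨h1, h2, h3, fun l => by simpa using h4 l, fun l i => by simpa using h5 l i,
    fun t ht hs => ?_⟩
  have h7 := h6 t ht
  simp only [Nat.cast_one, div_one, Nat.cast_zero, mul_zero, zero_add, Finset.range_one,
    Finset.prod_singleton, Polynomial.eval_mul, Polynomial.eval_add, Polynomial.eval_X,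
    Polynomial.eval_one] at h7
  have h8 : (∑ j, t j) + 1 ≠ 0 := fun h => hs (eq_neg_of_add_eq_zero_left h)
  apply mul_left_cancel₀ h8
  rw [← mul_assoc, h7, Finset.mul_sum]
  refine Finset.sum_congr rfl fun l _ => ?_
  ring

theorem main (h1 : S_BtoG) (h2 : S_RAL) (h3 : S_RCore0) (h4 : S_Chamber2) (h5 : S_RLLI) :
    S_RootG := by
  classical
  intro n k r π m c hJ hc hk hm b hb a u₀ ha hg hu₀ hsub hcard
  have hU := h1 _ b hb
  rw [gpol_eq] at hU
  obtain ⟨L', L, ac, γ, q, ω, α, β, hI⟩ := h2 (fun _ => 0) (cay π m) c 1 (affInd_cay π m hJ) hc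
    hk one_pos _ hU
  have hI0 := ident0 _ _ _ _ _ _ _ _ hI
  obtain ⟨u, hu, hsu, hR⟩ := h4 (cay π m) a u₀ hk ha hu₀ hsub
  obtain ⟨t₀, Λ, p, g1, g2, g3, g4, g5, g6⟩ := h5 π m a (amin (cay π m) u) hm hR hg
    (fun i hi => (hcard i hi).trans (Finset.card_le_card (Finset.filter_subset_filter _ hsu)))
  exact h3 (cay π m) a u hu hR hg t₀ Λ p g1 g2 g3 g4 g5 g6 b ac γ q ω α β hI0

end Pool.Agent.W749.JI.RootG
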